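import Pool.Agent.J4H42.TL.N44

/-!
# Project TL, job N63
-/

set_option autoImplicit false

namespace Pool.Agent.J4H42.TL

open Pool.Agent.J4H13.LA Pool.Agent.J4H13.TL Finset

variable {n : ℕ} {Φ : Finset (Finset (Fin n))} {w : Fin n → ℕ}

theorem t_N63 : S_N63 := by
  classical
  intro n Φ w h ha hb hx hG
  -- the block with three lines of weight 1
  have hG' : ∃ G ∈ Φ, 3 ≤ nu w 1 G := by
    have h1 : 1 ≤ ty Φ w 3 0 ∨ 1 ≤ ty Φ w 3 1 ∨ 1 ≤ ty Φ w 4 0 := by omega
    rcases h1 with h1 | h1 | h1 <;>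
    · obtain ⟨T, hT, hT1, _⟩ := exists_of_ty h1
      exact ⟨T, hT, by omega⟩
  obtain ⟨G, hGΦ, hG3⟩ := hG'
  rw [ty_eq] at hx
  have hB : (q w 2 Finset.univ).card = 3 := hb
  have hA : (q w 1 Finset.univ).card = 6 := ha
  obtain ⟨b, hbi, hbB⟩ : ∃ b : Fin 3 → Fin n, Function.Injective b ∧
      ∀ i, i ∈ q w 2 Finset.univ ↔ ∃ j, b j = i := by
    let e := (Finset.equivFinOfCardEq hB).symm
    refine ⟨fun j => (e j : Fin n), fun i j hij => e.injective (Subtype.ext hij), fun i => ?_⟩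
    constructor
    · intro hi
      exact ⟨e.symm ⟨i, hi⟩, by simp⟩
    · rintro ⟨j, rfl⟩
      exact (e j).2
  have hw2 : ∀ j, w (b j) = 2 := fun j => (Finset.mem_filter.1 ((hbB (b j)).2 ⟨j, rfl⟩)).2
  -- the special blocks
  have himg : (sp Φ w).image (q w 2) = (q w 2 Finset.univ).powersetCard 2 := by
    apply Finset.eq_of_subset_of_card_le
    · intro S hS
      rw [Finset.mem_image] at hS
      obtain ⟨F, hF, rfl⟩ := hS
      rw [Finset.mem_powersetCard]
      exact ⟨q_sub 2 F, (Finset.mem_filter.1 hF).2.2⟩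
    · rw [Finset.card_powersetCard, hB, Finset.card_image_of_injOn, hx]
      · decide
      · intro F hF F' hF' he
        rw [Finset.mem_coe, Finset.mem_filter] at hF hF'
        exact sp_ext (w := w) h.ls hF.1 hF'.1 hF.2.2.ge he
  have hV : ∀ j, ∃ V ∈ sp Φ w, q w 2 V = (q w 2 Finset.univ).erase (b j) := by
    intro j
    have h1 : (q w 2 Finset.univ).erase (b j) ∈ (q w 2 Finset.univ).powersetCard 2 := by
      rw [Finset.mem_powersetCard]
      refine ⟨Finset.erase_subset _ _, ?_⟩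
      rw [Finset.card_erase_of_mem ((hbB (b j)).2 ⟨j, rfl⟩), hB]
    rw [← himg, Finset.mem_image] at h1
    exact h1
  choose V hV hVB using hV
  have hVΦ : ∀ j, V j ∈ Φ := fun j => (Finset.mem_filter.1 (hV j)).1
  have hbV : ∀ j k, j ≠ k → b k ∈ V j := by
    intro j k hjk
    have h1 : b k ∈ q w 2 (V j) := by
      rw [hVB, Finset.mem_erase]
      exact ⟨fun h => hjk (hbi h).symm, (hbB (b k)).2 ⟨k, rfl⟩⟩
    exact (Finset.mem_filter.1 h1).1
  have hbV' : ∀ j, b j ∉ V j := by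
    intro j hj
    have h1 : b j ∈ q w 2 (V j) := Finset.mem_filter.2 ⟨hj, hw2 j⟩
    rw [hVB, Finset.mem_erase] at h1
    exact h1.1 rfl
  have hne : ∀ j k, j ≠ k → V j ≠ V k := by
    intro j k hjk he
    exact hbV' k (by rw [← he]; exact hbV j k hjk)
  have hdis : ∀ j k, j ≠ k → Disjoint (q w 1 (V j)) (q w 1 (V k)) := by
    intro j k hjk
    obtain ⟨m, hm1, hm2⟩ : ∃ m : Fin 3, j ≠ m ∧ k ≠ m := by
      revert j k
      decide
    rw [Finset.disjoint_left]
    intro c hc hc'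
    rw [Finset.mem_filter] at hc hc'
    exact not_both h.ls (hVΦ j) (hVΦ k) (hne j k hjk) hc.2 (hw2 m) hc.1 hc'.1 (hbV j m hm1)
      (hbV k m hm2)
  have hcov : (Finset.univ : Finset (Fin 3)).biUnion (fun j => q w 1 (V j)) =
      q w 1 Finset.univ := by
    apply Finset.eq_of_subset_of_card_le
    · intro c hc
      rw [Finset.mem_biUnion] at hc
      obtain ⟨j, _, hc⟩ := hc
      exact q_sub 1 (V j) hc
    · rw [Finset.card_biUnion (fun j _ k _ hjk => hdis j k hjk), hA]
      have h1 : ∀ j ∈ (Finset.univ : Finset (Fin 3)), (q w 1 (V j)).card = 2 :=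
        fun j _ => (Finset.mem_filter.1 (hV j)).2.1
      rw [Finset.sum_congr rfl h1]
      simp
  -- the line of `G` in `V j`
  have hle : ∀ j, (q w 1 G ∩ V j).card ≤ 1 := by
    intro j
    have hne' : G ≠ V j := by
      rintro rfl
      have := (Finset.mem_filter.1 (hV j)).2.1
      omega
    refine (Finset.card_le_card ?_).trans (inter_le_one h.ls hGΦ (hVΦ j) hne')
    exact Finset.inter_subset_inter (Finset.filter_subset _ _) (Finset.Subset.refl _)
  have hsum : 3 ≤ ∑ j, (q w 1 G ∩ V j).card := by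
    rw [nu_eq] at hG3
    refine hG3.trans (le_trans (Finset.card_le_card ?_) Finset.card_biUnion_le)
    intro c hc
    have h1 : c ∈ q w 1 Finset.univ := q_sub 1 G hc
    rw [← hcov, Finset.mem_biUnion] at h1
    obtain ⟨j, _, hj⟩ := h1
    rw [Finset.mem_biUnion]
    exact ⟨j, Finset.mem_univ j, Finset.mem_inter.2 ⟨hc, (Finset.mem_filter.1 hj).1⟩⟩
  have hpos : ∀ j, ∃ c, c ∈ q w 1 G ∩ V j := by
    intro j
    rw [Fin.sum_univ_three] at hsum
    have h0 := hle 0
    have h1 := hle 1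
    have h2 := hle 2
    have h3 : 0 < (q w 1 G ∩ V j).card := by
      fin_cases j <;> simp only [Fin.zero_eta, Fin.mk_one, Fin.reduceFinMk] <;> omega
    exact Finset.card_pos.1 h3
  choose c hc using hpos
  have hcG : ∀ j, c j ∈ G ∧ w (c j) = 1 ∧ c j ∈ V j := by
    intro j
    have h1 := hc j
    rw [Finset.mem_inter, Finset.mem_filter] at h1
    exact ⟨h1.1.1, h1.1.2, h1.2⟩
  have hd : ∀ j, ∃ d, d ∈ V j ∧ w d = 1 ∧ q w 1 (V j) = {c j, d} := by
    intro j
    have h1 : c j ∈ q w 1 (V j) := Finset.mem_filter.2 ⟨(hcG j).2.2, (hcG j).2.1⟩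
    have h2 : ((q w 1 (V j)).erase (c j)).card = 1 := by
      rw [Finset.card_erase_of_mem h1]
      have := (Finset.mem_filter.1 (hV j)).2.1
      rw [nu_eq] at this
      omega
    obtain ⟨d, hd⟩ := Finset.card_eq_one.1 h2
    have h3 : d ∈ (q w 1 (V j)).erase (c j) := by
      rw [hd]
      exact Finset.mem_singleton_self d
    have h4 := Finset.mem_filter.1 (Finset.mem_erase.1 h3).2
    refine ⟨d, h4.1, h4.2, ?_⟩
    rw [← Finset.insert_erase h1, hd]
  choose d hdV hd1 hdq using hd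
  refine ⟨b, c, d, V, G, fun j => ⟨hw2 j, (hcG j).2.1, hd1 j⟩, ?_, fun j => ⟨hVΦ j, ?_, ?_,
    (hcG j).2.2, hdV j, hbV' j⟩, hGΦ, fun j => (hcG j).1⟩
  · rw [Fintype.bijective_iff_surjective_and_card]
    constructor
    · intro i
      rcases h.wt i with hi | hi
      · have h1 : i ∈ q w 1 Finset.univ := Finset.mem_filter.2 ⟨Finset.mem_univ i, hi⟩
        rw [← hcov, Finset.mem_biUnion] at h1
        obtain ⟨j, _, hj⟩ := h1
        rw [hdq j, Finset.mem_insert, Finset.mem_singleton] at hj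
        rcases hj with hj | hj
        · exact ⟨Sum.inr (Sum.inl j), hj.symm⟩
        · exact ⟨Sum.inr (Sum.inr j), hj.symm⟩
      · obtain ⟨j, hj⟩ := (hbB i).1 (Finset.mem_filter.2 ⟨Finset.mem_univ i, hi⟩)
        exact ⟨Sum.inl j, hj⟩
    · have h1 := nu_add h.wt Finset.univ
      rw [ha, hb, Finset.card_univ] at h1
      rw [← h1]
      simp
  · exact hbV j (j + 1) (by revert j; decide)
  · exact hbV j (j + 2) (by revert j; decide)

end Pool.Agent.J4H42.TL
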