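import Pool.Agent.J4H42.TL.N44

/-!
# Project TL, job N74
-/

set_option autoImplicit false

namespace Pool.Agent.J4H42.TL

open Pool.Agent.J4H13.LA Pool.Agent.J4H13.TL Finset

variable {n : ℕ} {Φ : Finset (Finset (Fin n))} {w : Fin n → ℕ}

lemma sum_inter_le (h : IsLS Φ) (hb : nu w 2 Finset.univ = 4) {F : Finset (Fin n)}
    (hF : F ∈ sp Φ w) : ∑ F' ∈ sp Φ w, (q w 1 F ∩ F').card ≤ 3 := by
  classical
  rw [← Finset.add_sum_erase _ _ hF]
  have hF0 := Finset.mem_filter.1 hF
  have h1 : (q w 1 F ∩ F).card = 2 := by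
    rw [Finset.inter_eq_left.2 (Finset.filter_subset _ _), ← nu_eq]
    exact hF0.2.1
  have h2 : ∑ F' ∈ (sp Φ w).erase F, (q w 1 F ∩ F').card ≤
      ∑ F' ∈ (sp Φ w).erase F, if q w 2 F' = q w 2 Finset.univ \ q w 2 F then 1 else 0 := by
    refine Finset.sum_le_sum fun F' hF' => ?_
    rw [Finset.mem_erase, Finset.mem_filter] at hF'
    split_ifs with h3
    · refine (Finset.card_le_card ?_).trans (inter_le_one h hF0.1 hF'.2.1 (Ne.symm hF'.1))
      exact Finset.inter_subset_inter (Finset.filter_subset _ _) (Finset.Subset.refl _)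
    · rw [Nat.le_zero, Finset.card_eq_zero, Finset.eq_empty_iff_forall_notMem]
      intro c hc
      rw [Finset.mem_inter, Finset.mem_filter] at hc
      apply h3
      refine compl_of_disjoint (q_sub 2 F) (q_sub 2 F') ?_ ?_
      · have h4 := hF0.2.2
        have h5 := hF'.2.2.2
        rw [nu_eq] at hb h4 h5
        omega
      · rw [Finset.disjoint_left]
        intro j hj hj'
        rw [Finset.mem_filter] at hj hj'
        exact not_both h hF0.1 hF'.2.1 (Ne.symm hF'.1) hc.1.2 hj.2 hc.1.1 hc.2 hj.1 hj'.1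
  have h3 : ∑ F' ∈ (sp Φ w).erase F, (if q w 2 F' = q w 2 Finset.univ \ q w 2 F then 1 else 0) ≤
      1 := by
    rw [← Finset.card_filter, Finset.card_le_one]
    intro F₁ h₁ F₂ h₂
    rw [Finset.mem_filter, Finset.mem_erase, Finset.mem_filter] at h₁ h₂
    exact sp_ext (w := w) h h₁.1.2.1 h₂.1.2.1 h₁.1.2.2.2.ge (h₁.2.trans h₂.2.symm)
  omega

theorem t_N74 : S_N74 := by
  classical
  intro n Φ w h ha hb hx
  rw [ty_eq] at hx
  have h1 : ∑ c ∈ q w 1 Finset.univ, ((sp Φ w).filter fun F => c ∈ F).card = 12 := by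
    rw [incid]
    have h2 : ∀ F ∈ sp Φ w, nu w 1 F = 2 := fun F hF => (Finset.mem_filter.1 hF).2.1
    rw [Finset.sum_congr rfl h2, Finset.sum_const, hx]
    rfl
  have h2 : ∑ c ∈ q w 1 Finset.univ, ((sp Φ w).filter fun F => c ∈ F).card ^ 2 =
      ∑ F ∈ sp Φ w, ∑ F' ∈ sp Φ w, (q w 1 F ∩ F').card := by
    have h3 : ∀ F ∈ sp Φ w, ∑ F' ∈ sp Φ w, (q w 1 F ∩ F').card =
        ∑ c ∈ q w 1 F, ((sp Φ w).filter fun F' => c ∈ F').card := by
      intro F _
      have h4 := Finset.sum_card_bipartiteAbove_eq_sum_card_bipartiteBelow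
        (s := q w 1 F) (t := sp Φ w) (fun i F => i ∈ F)
      unfold Finset.bipartiteAbove Finset.bipartiteBelow at h4
      rw [h4]
      refine Finset.sum_congr rfl fun F' _ => ?_
      congr 1
    rw [Finset.sum_congr rfl h3]
    rw [Finset.sum_comm' (t' := q w 1 Finset.univ)
      (s' := fun c => (sp Φ w).filter fun F => c ∈ F)]
    · refine Finset.sum_congr rfl fun c _ => ?_
      rw [Finset.sum_const, smul_eq_mul, sq]
    · intro F c
      simp only [Finset.mem_filter, Finset.mem_univ, true_and]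
      tauto
  have h3 : ∑ F ∈ sp Φ w, ∑ F' ∈ sp Φ w, (q w 1 F ∩ F').card ≤ 18 := by
    refine (Finset.sum_le_sum fun F hF => sum_inter_le h.ls hb hF).trans ?_
    rw [Finset.sum_const, hx]
    norm_num
  have h4 := sq_sum_le_card_mul_sum_sq (s := q w 1 Finset.univ)
    (f := fun c => ((sp Φ w).filter fun F => c ∈ F).card)
  rw [h1, h2, ← nu_eq, ha] at h4
  omega

end Pool.Agent.J4H42.TL
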