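import Pool.Agent.J4H13.TL.Jobs

/-!
# Inequalities for linear spaces with blocks of size at most four (project TL, job INQ)
-/

set_option autoImplicit false

namespace Pool.Agent.J4H42.TL

open Pool.Agent.J4H13.LA Pool.Agent.J4H13.TL Finset

variable {n : ℕ} {Φ : Finset (Finset (Fin n))} {w : Fin n → ℕ}

/-- the lines of weight `j` in `F` -/
abbrev q (w : Fin n → ℕ) (j : ℕ) (F : Finset (Fin n)) : Finset (Fin n) := F.filter fun i => w i = j

lemma nu_eq (w : Fin n → ℕ) (j : ℕ) (F : Finset (Fin n)) : nu w j F = (q w j F).card := rfl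

lemma inter_le_one (h : IsLS Φ) {F F' : Finset (Fin n)} (hF : F ∈ Φ) (hF' : F' ∈ Φ)
    (hne : F ≠ F') : (F ∩ F').card ≤ 1 := by
  rw [Finset.card_le_one]
  intro a ha b hb
  by_contra hab
  rw [Finset.mem_inter] at ha hb
  exact hne (h.2.2 F hF F' hF' a b hab ha.1 hb.1 ha.2 hb.2)

lemma nu_add (hw : IsWt w) (F : Finset (Fin n)) : nu w 1 F + nu w 2 F = F.card := by
  unfold nu
  rw [← Finset.card_filter_add_card_filter_not (s := F) (fun i => w i = 1)]
  congr 2
  ext i
  rw [Finset.mem_filter, Finset.mem_filter]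
  rcases hw i with h | h <;> simp [h]

lemma W_eq (hw : IsWt w) (F : Finset (Fin n)) : W w F = nu w 1 F + 2 * nu w 2 F := by
  unfold nu W
  rw [Finset.card_filter, Finset.card_filter, Finset.mul_sum, ← Finset.sum_add_distrib]
  refine Finset.sum_congr rfl fun i _ => ?_
  rcases hw i with h | h <;> simp [h]

lemma co_wt (hw : IsWt w) : IsWt (co w) := by
  intro i
  unfold co
  rcases hw i with h | h <;> simp [h]

lemma co_one (hw : IsWt w) (F : Finset (Fin n)) : nu (co w) 1 F = nu w 2 F := by
  unfold nu co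
  congr 1
  ext i
  rw [Finset.mem_filter, Finset.mem_filter]
  rcases hw i with h | h <;> simp [h]

lemma co_two (hw : IsWt w) (F : Finset (Fin n)) : nu (co w) 2 F = nu w 1 F := by
  unfold nu co
  congr 1
  ext i
  rw [Finset.mem_filter, Finset.mem_filter]
  rcases hw i with h | h <;> simp [h]

lemma ty_co (hw : IsWt w) (α β : ℕ) : ty Φ (co w) α β = ty Φ w β α := by
  unfold ty
  congr 1
  ext F
  rw [Finset.mem_filter, Finset.mem_filter, co_one hw, co_two hw]
  tauto

lemma Sm.co (h : Sm Φ w) : Sm Φ (co w) := ⟨h.ls, co_wt h.wt, h.four⟩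

/-- counting the pairs of lines of weight `j` in the blocks -/
lemma pairs_le (h : IsLS Φ) (j : ℕ) :
    ∑ F ∈ Φ, (nu w j F).choose 2 ≤ (nu w j Finset.univ).choose 2 := by
  classical
  unfold nu
  have h1 : ∀ F ∈ Φ, (q w j F).card.choose 2 = ((q w j F).powersetCard 2).card := by
    intro F _
    rw [Finset.card_powersetCard]
  rw [Finset.sum_congr rfl h1, ← Finset.card_powersetCard, ← Finset.card_biUnion]
  · apply Finset.card_le_card
    intro S hS
    rw [Finset.mem_biUnion] at hS
    obtain ⟨F, _, hS⟩ := hS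
    rw [Finset.mem_powersetCard] at hS ⊢
    refine ⟨hS.1.trans ?_, hS.2⟩
    exact Finset.filter_subset_filter _ (Finset.subset_univ F)
  · intro F hF F' hF' hne
    rw [Function.onFun, Finset.disjoint_left]
    intro S hS hS'
    rw [Finset.mem_powersetCard] at hS hS'
    have h2 := inter_le_one h hF hF' hne
    have h3 : S ⊆ F ∩ F' := Finset.subset_inter (hS.1.trans (Finset.filter_subset _ _))
      (hS'.1.trans (Finset.filter_subset _ _))
    have h4 := Finset.card_le_card h3
    omega

/-- the special blocks: two lines of each weight -/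
abbrev sp (Φ : Finset (Finset (Fin n))) (w : Fin n → ℕ) : Finset (Finset (Fin n)) :=
  Φ.filter fun F => nu w 1 F = 2 ∧ nu w 2 F = 2

lemma ty_eq (Φ : Finset (Finset (Fin n))) (w : Fin n → ℕ) : ty Φ w 2 2 = (sp Φ w).card := rfl

/-- the special blocks through a line of weight 2 contain disjoint pairs of lines of weight 1 -/
lemma through_le (h : IsLS Φ) {i : Fin n} (hi : w i = 2) :
    ((sp Φ w).filter fun F => i ∈ F).card ≤ nu w 1 Finset.univ / 2 := by
  classical
  rw [Nat.le_div_iff_mul_le (by norm_num)]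
  have h1 : ((sp Φ w).filter fun F => i ∈ F).card * 2 =
      ∑ F ∈ (sp Φ w).filter (fun F => i ∈ F), (q w 1 F).card := by
    rw [← smul_eq_mul, ← Finset.sum_const]
    refine Finset.sum_congr rfl fun F hF => ?_
    rw [Finset.mem_filter, Finset.mem_filter] at hF
    exact hF.1.2.1.symm
  rw [h1, ← Finset.card_biUnion]
  · apply Finset.card_le_card
    intro S hS
    rw [Finset.mem_biUnion] at hS
    obtain ⟨F, _, hS⟩ := hS
    exact Finset.filter_subset_filter _ (Finset.subset_univ F) hS
  · intro F hF F' hF' hne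
    rw [Function.onFun, Finset.disjoint_left]
    intro c hc hc'
    rw [Finset.mem_coe, Finset.mem_filter, Finset.mem_filter] at hF hF'
    rw [Finset.mem_filter] at hc hc'
    apply hne
    refine h.2.2 F hF.1.1 F' hF'.1.1 i c ?_ hF.2 hc.1 hF'.2 hc'.1
    intro hic
    rw [hic, hc.2] at hi
    omega

/-- double counting of the incidences between special blocks and lines of weight `j` -/
lemma incid {Ψ : Finset (Finset (Fin n))} (j : ℕ) :
    ∑ i ∈ q w j Finset.univ, (Ψ.filter fun F => i ∈ F).card = ∑ F ∈ Ψ, nu w j F := by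
  classical
  have h1 := Finset.sum_card_bipartiteAbove_eq_sum_card_bipartiteBelow
    (s := q w j Finset.univ) (t := Ψ) (fun i F => i ∈ F)
  unfold Finset.bipartiteAbove Finset.bipartiteBelow at h1
  rw [h1]
  refine Finset.sum_congr rfl fun F _ => ?_
  unfold nu
  congr 1
  ext i
  simp [and_comm]

lemma three (h : IsLS Φ) :
    2 * ty Φ w 2 2 ≤ nu w 2 Finset.univ * (nu w 1 Finset.univ / 2) := by
  classical
  have h1 : ∑ F ∈ sp Φ w, nu w 2 F = 2 * ty Φ w 2 2 := by
    have h2 : ∀ F ∈ sp Φ w, nu w 2 F = 2 := fun F hF => (Finset.mem_filter.1 hF).2.2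
    rw [Finset.sum_congr rfl h2, Finset.sum_const, smul_eq_mul, mul_comm]
    rfl
  rw [← h1, ← incid]
  refine (Finset.sum_le_sum fun i hi => through_le h (Finset.mem_filter.1 hi).2).trans ?_
  rw [Finset.sum_const, smul_eq_mul]
  exact le_rfl

lemma one (h : Sm Φ w) :
    ty Φ w 2 2 + 3 * (ty Φ w 0 3 + ty Φ w 1 3) + 6 * ty Φ w 0 4 ≤
      (nu w 2 Finset.univ).choose 2 := by
  classical
  refine le_trans ?_ (pairs_le (w := w) h.ls 2)
  unfold ty
  simp_rw [Finset.card_filter]
  rw [← Finset.sum_add_distrib, Finset.mul_sum, ← Finset.sum_add_distrib, Finset.mul_sum,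
    ← Finset.sum_add_distrib]
  refine Finset.sum_le_sum fun F hF => ?_
  have h2 : nu w 2 F ≤ 4 := by
    have := nu_add h.wt F
    have := h.four F hF
    omega
  interval_cases nu w 2 F <;> simp [Nat.choose] <;> split_ifs <;> omega

lemma five (h : Sm Φ w) :
    cnt Φ w = ty Φ w 2 2 + (ty Φ w 0 3 + ty Φ w 1 3) + ty Φ w 0 4 := by
  classical
  unfold ty cnt
  simp_rw [Finset.card_filter]
  rw [← Finset.sum_add_distrib, ← Finset.sum_add_distrib, ← Finset.sum_add_distrib]
  refine Finset.sum_congr rfl fun F hF => ?_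
  rw [W_eq h.wt]
  have h1 := nu_add h.wt F
  have h2 := h.four F hF
  have h3 : nu w 1 F ≤ 4 := by omega
  have h4 : nu w 2 F ≤ 4 := by omega
  generalize nu w 1 F = α at *
  generalize nu w 2 F = β at *
  interval_cases α <;> interval_cases β <;> first | (exfalso; omega) | simp

theorem t_INQ : S_INQ := by
  intro n Φ w h
  have h1 := one h
  have h2 := one (Sm.co h)
  have h3 := three (w := w) h.ls
  have h4 := three (w := co w) h.ls
  have h5 := five h
  have h6 := five (Sm.co h)
  simp only [ty_co h.wt, co_one h.wt, co_two h.wt] at h2 h4 h6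
  exact ⟨h1, h2, h3, h4, h5, h6⟩

end Pool.Agent.J4H42.TL
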