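import Pool.Agent.J4H42.TL.Inq

/-!
# Project TL, job N44
-/

set_option autoImplicit false

namespace Pool.Agent.J4H42.TL

open Pool.Agent.J4H13.LA Pool.Agent.J4H13.TL Finset

variable {n : ℕ} {Φ : Finset (Finset (Fin n))} {w : Fin n → ℕ}

/-- two different blocks do not meet both in a line of weight 1 and in a line of weight 2 -/
lemma not_both (h : IsLS Φ) {F F' : Finset (Fin n)} (hF : F ∈ Φ) (hF' : F' ∈ Φ) (hne : F ≠ F')
    {i j : Fin n} (hi : w i = 1) (hj : w j = 2) (hiF : i ∈ F) (hiF' : i ∈ F') (hjF : j ∈ F) :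
    j ∉ F' := by
  intro hjF'
  refine hne (h.2.2 F hF F' hF' i j ?_ hiF hjF hiF' hjF')
  intro hij
  rw [hij] at hi
  omega

/-- two special blocks with the same lines of weight `j` are equal -/
lemma sp_ext (h : IsLS Φ) {F F' : Finset (Fin n)} (hF : F ∈ Φ) (hF' : F' ∈ Φ) {j : ℕ}
    (h2 : 2 ≤ nu w j F) (he : q w j F = q w j F') : F = F' := by
  by_contra hne
  have h1 := inter_le_one h hF hF' hne
  have h3 : q w j F ⊆ F ∩ F' := by
    refine Finset.subset_inter (Finset.filter_subset _ _) ?_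
    rw [he]
    exact Finset.filter_subset _ _
  have h4 := Finset.card_le_card h3
  rw [nu_eq] at h2
  omega

lemma compl_of_disjoint {S T U : Finset (Fin n)} (hS : S ⊆ U) (hT : T ⊆ U)
    (hU : U.card ≤ S.card + T.card) (hd : Disjoint S T) : T = U \ S := by
  apply Finset.eq_of_subset_of_card_le
  · intro x hx
    rw [Finset.mem_sdiff]
    exact ⟨hT hx, fun hxS => Finset.disjoint_left.1 hd hxS hx⟩
  · rw [Finset.card_sdiff_of_subset hS]
    omega

lemma compl_symm {S T U : Finset (Fin n)} (hS : S ⊆ U) (h : T = U \ S) : S = U \ T := by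
  rw [h, Finset.sdiff_sdiff_eq_self hS]

lemma q_sub (j : ℕ) (F : Finset (Fin n)) : q w j F ⊆ q w j Finset.univ :=
  Finset.filter_subset_filter _ (Finset.subset_univ F)

lemma sp_cases (h : IsLS Φ) (ha : nu w 1 Finset.univ = 4) (hb : nu w 2 Finset.univ = 4)
    {F F' : Finset (Fin n)} (hF : F ∈ sp Φ w) (hF' : F' ∈ sp Φ w) (hne : F ≠ F') :
    q w 1 F' = q w 1 Finset.univ \ q w 1 F ∨ q w 2 F' = q w 2 Finset.univ \ q w 2 F := by
  classical
  rw [Finset.mem_filter] at hF hF'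
  obtain ⟨hF, h1, h2⟩ := hF
  obtain ⟨hF', h1', h2'⟩ := hF'
  by_cases hd : Disjoint (q w 1 F) (q w 1 F')
  · left
    refine compl_of_disjoint (q_sub 1 F) (q_sub 1 F') ?_ hd
    rw [nu_eq] at ha h1 h1'
    omega
  · right
    refine compl_of_disjoint (q_sub 2 F) (q_sub 2 F') ?_ ?_
    · rw [nu_eq] at hb h2 h2'
      omega
    · rw [Finset.not_disjoint_iff] at hd
      obtain ⟨i, hi, hi'⟩ := hd
      rw [Finset.mem_filter] at hi hi'
      rw [Finset.disjoint_left]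
      intro j hj hj'
      rw [Finset.mem_filter] at hj hj'
      exact not_both h hF hF' hne hi.2 hj.2 hi.1 hi'.1 hj.1 hj'.1

lemma sp_le_two (h : IsLS Φ) (ha : nu w 1 Finset.univ = 4) (hb : nu w 2 Finset.univ = 4) :
    ty Φ w 2 2 ≤ 2 := by
  classical
  by_contra hcon
  have h3 : 2 < (sp Φ w).card := by
    rw [ty_eq] at hcon
    omega
  obtain ⟨F₁, F₂, F₃, hF₁, hF₂, hF₃, h12, h13, h23⟩ := Finset.two_lt_card_iff.1 h3
  have key : ∀ {F F' F'' : Finset (Fin n)}, F ∈ sp Φ w → F' ∈ sp Φ w → F'' ∈ sp Φ w → F' ≠ F'' →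
      ∀ j, (j = 1 ∨ j = 2) → q w j F' = q w j Finset.univ \ q w j F →
      q w j F'' = q w j Finset.univ \ q w j F → False := by
    intro F F' F'' hF hF' hF'' hne j hj h1 h2
    rw [Finset.mem_filter] at hF hF' hF''
    refine hne (sp_ext (w := w) h hF'.1 hF''.1 (j := j) ?_ (h1.trans h2.symm))
    rcases hj with rfl | rfl
    · exact hF'.2.1.ge
    · exact hF'.2.2.ge
  have sy : ∀ (j : ℕ) (F F' : Finset (Fin n)), q w j F' = q w j Finset.univ \ q w j F →
      q w j F = q w j Finset.univ \ q w j F' := fun j F F' h => compl_symm (q_sub j F) h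
  rcases sp_cases h ha hb hF₁ hF₂ h12 with h4 | h4 <;>
  rcases sp_cases h ha hb hF₁ hF₃ h13 with h5 | h5
  · exact key hF₁ hF₂ hF₃ h23 1 (Or.inl rfl) h4 h5
  · rcases sp_cases h ha hb hF₂ hF₃ h23 with h6 | h6
    · exact key hF₂ hF₁ hF₃ h13 1 (Or.inl rfl) (sy _ _ _ h4) h6
    · exact key hF₃ hF₁ hF₂ h12 2 (Or.inr rfl) (sy _ _ _ h5) (sy _ _ _ h6)
  · rcases sp_cases h ha hb hF₂ hF₃ h23 with h6 | h6
    · exact key hF₃ hF₁ hF₂ h12 1 (Or.inl rfl) (sy _ _ _ h5) (sy _ _ _ h6)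
    · exact key hF₂ hF₁ hF₃ h13 2 (Or.inr rfl) (sy _ _ _ h4) h6
  · exact key hF₁ hF₂ hF₃ h23 2 (Or.inr rfl) h4 h5

/-- a block with three of the four lines of weight 2: all the special blocks contain the fourth line -/
lemma fourth (h : IsLS Φ) (hb : nu w 2 Finset.univ = 4) {T : Finset (Fin n)} (hT : T ∈ Φ)
    (hT3 : nu w 2 T = 3) : ∃ b, w b = 2 ∧ ∀ F ∈ sp Φ w, b ∈ F := by
  classical
  rw [nu_eq] at hb hT3
  have h1 : (q w 2 Finset.univ \ q w 2 T).card = 1 := by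
    rw [Finset.card_sdiff_of_subset (q_sub 2 T)]
    omega
  obtain ⟨b, hb1⟩ := Finset.card_eq_one.1 h1
  have h2 : b ∈ q w 2 Finset.univ \ q w 2 T := by
    rw [hb1]
    exact Finset.mem_singleton_self b
  rw [Finset.mem_sdiff, Finset.mem_filter] at h2
  refine ⟨b, h2.1.2, fun F hF => ?_⟩
  rw [Finset.mem_filter] at hF
  by_contra hbF
  have hne : F ≠ T := by
    rintro rfl
    rw [nu_eq, nu_eq] at hF
    omega
  have h3 := inter_le_one h hF.1 hT hne
  have h4 : q w 2 F ⊆ F ∩ T := by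
    intro c hc
    have hc' := Finset.mem_filter.1 hc
    rw [Finset.mem_inter]
    refine ⟨hc'.1, ?_⟩
    by_contra hcT
    have h5 : c ∈ q w 2 Finset.univ \ q w 2 T := by
      rw [Finset.mem_sdiff, Finset.mem_filter, Finset.mem_filter]
      exact ⟨⟨Finset.mem_univ c, hc'.2⟩, fun h => hcT h.1⟩
    rw [hb1, Finset.mem_singleton] at h5
    rw [h5] at hc'
    exact hbF hc'.1
  have h5 := Finset.card_le_card h4
  have h6 := hF.2.2
  rw [nu_eq] at h6
  omega

lemma exists_of_ty {α β : ℕ} (h : 1 ≤ ty Φ w α β) : ∃ F ∈ Φ, nu w 1 F = α ∧ nu w 2 F = β := by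
  unfold ty at h
  obtain ⟨F, hF⟩ := Finset.card_pos.1 h
  rw [Finset.mem_filter] at hF
  exact ⟨F, hF.1, hF.2⟩

lemma two_or (h : Sm Φ w) (ha : nu w 1 Finset.univ = 4) (hb : nu w 2 Finset.univ = 4)
    (h3 : 3 ≤ ty Φ w 2 2 + (ty Φ w 0 3 + ty Φ w 1 3) + ty Φ w 0 4) :
    ty Φ w 2 2 = 2 ∧ ∃ b, w b = 2 ∧ ∀ F ∈ sp Φ w, b ∈ F := by
  have h1 := sp_le_two h.ls ha hb
  have h2 := one h
  rw [hb] at h2
  have h4 : Nat.choose 4 2 = 6 := by decide
  rw [h4] at h2
  refine ⟨by omega, ?_⟩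
  have h5 : 1 ≤ ty Φ w 0 3 ∨ 1 ≤ ty Φ w 1 3 := by omega
  rcases h5 with h5 | h5
  · obtain ⟨T, hT, _, hT2⟩ := exists_of_ty h5
    exact fourth h.ls hb hT hT2
  · obtain ⟨T, hT, _, hT2⟩ := exists_of_ty h5
    exact fourth h.ls hb hT hT2

theorem t_N44 : S_N44 := by
  classical
  intro n Φ w h ha hb h1 h2
  obtain ⟨h3, b, hb2, hbF⟩ := two_or h ha hb h1
  have hco := two_or (Sm.co h) (by rw [co_one h.wt]; exact hb) (by rw [co_two h.wt]; exact ha)
    (by rw [ty_co h.wt, ty_co h.wt, ty_co h.wt, ty_co h.wt]; exact h2)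
  obtain ⟨-, a, ha2, haF⟩ := hco
  have hsp : ∀ F, F ∈ sp Φ w → F ∈ sp Φ (co w) := by
    intro F hF
    rw [Finset.mem_filter] at hF ⊢
    rw [co_one h.wt, co_two h.wt]
    exact ⟨hF.1, hF.2.2, hF.2.1⟩
  have ha1 : w a = 1 := by
    unfold co at ha2
    rcases h.wt a with h | h <;> omega
  rw [ty_eq] at h3
  obtain ⟨F, F', hne, hFF⟩ := Finset.card_eq_two.1 h3
  have hF : F ∈ sp Φ w := by
    rw [hFF]
    exact Finset.mem_insert_self _ _
  have hF' : F' ∈ sp Φ w := by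
    rw [hFF]
    exact Finset.mem_insert_of_mem (Finset.mem_singleton_self _)
  exact not_both h.ls (Finset.mem_filter.1 hF).1 (Finset.mem_filter.1 hF').1 hne ha1 hb2
    (haF F (hsp F hF)) (haF F' (hsp F' hF')) (hbF F hF) (hbF F' hF')

end Pool.Agent.J4H42.TL
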